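import Mathlib

/-!
# Algebra of section 4 of PaperF: averaging, fixed parts, connectivity, support

Chains on a finite type `Y` are plain functions `Y → R`, `Y → Y → R`, `Y → Y → Y → R`.
-/

namespace Pool.Agent.MSF.H63

open Finset

/-- Boundary of a 1-chain. -/
def bd1 {Y R : Type*} [Fintype Y] [AddCommGroup R] (ν : Y → Y → R) (A : Y) : R :=
  ∑ X, (ν X A - ν A X)

/-- Boundary of a 2-chain. -/
def bd2 {Y R : Type*} [Fintype Y] [AddCommGroup R] (N : Y → Y → Y → R) (A A' : Y) : R :=
  ∑ X, (N X A A' - N A X A' + N A A' X)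

section basic

variable {Y R : Type*} [Fintype Y] [AddCommGroup R]

theorem bd1_bd2 (N : Y → Y → Y → R) (A : Y) : bd1 (bd2 N) A = 0 := by
  unfold bd1 bd2
  simp only [← Finset.sum_sub_distrib]
  have h1 : ∑ x, ∑ x_1, N x_1 x A = ∑ x, ∑ x_1, N x x_1 A := Finset.sum_comm
  have h2 : ∑ x, ∑ x_1, N x A x_1 = ∑ x, ∑ x_1, N x_1 A x := Finset.sum_comm
  have h3 : ∑ x, ∑ x_1, N A x_1 x = ∑ x, ∑ x_1, N A x x_1 := Finset.sum_comm
  simp only [Finset.sum_sub_distrib, Finset.sum_add_distrib]
  rw [h1, h2, h3]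
  abel

theorem bd1_sub (ν ν' : Y → Y → R) (A : Y) :
    bd1 (fun X X' => ν X X' - ν' X X') A = bd1 ν A - bd1 ν' A := by
  unfold bd1
  rw [← Finset.sum_sub_distrib]
  exact Finset.sum_congr rfl fun X _ => by beta_reduce; abel

theorem bd2_sub (N N' : Y → Y → Y → R) (A A' : Y) :
    bd2 (fun X X' X'' => N X X' X'' - N' X X' X'') A A' = bd2 N A A' - bd2 N' A A' := by
  unfold bd2
  rw [← Finset.sum_sub_distrib]
  exact Finset.sum_congr rfl fun X _ => by beta_reduce; abel

theorem bd2_sum {ι : Type*} (s : Finset ι) (N : ι → Y → Y → Y → R) (A A' : Y) :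
    bd2 (fun X X' X'' => ∑ i ∈ s, N i X X' X'') A A' = ∑ i ∈ s, bd2 (N i) A A' := by
  unfold bd2
  rw [Finset.sum_comm]
  refine Finset.sum_congr rfl fun X _ => ?_
  rw [← Finset.sum_sub_distrib, ← Finset.sum_add_distrib]

theorem bd1_act {B : Type*} [Group B] [MulAction B Y] (b : B) (ν : Y → Y → R) (A : Y) :
    bd1 (fun X X' => ν (b⁻¹ • X) (b⁻¹ • X')) A = bd1 ν (b⁻¹ • A) := by
  unfold bd1
  exact Fintype.sum_equiv (MulAction.toPerm b⁻¹) _ _ fun X => rfl

theorem bd2_act {B : Type*} [Group B] [MulAction B Y] (b : B) (N : Y → Y → Y → R) (A A' : Y) :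
    bd2 (fun X X' X'' => N (b⁻¹ • X) (b⁻¹ • X') (b⁻¹ • X'')) A A' =
      bd2 N (b⁻¹ • A) (b⁻¹ • A') := by
  unfold bd2
  exact Fintype.sum_equiv (MulAction.toPerm b⁻¹) _ _ fun X => rfl

end basic

/-- (4.1) averaging. -/
theorem averaging {B T : Type*} [Group B] [Fintype B] [MulAction B T] (D : B → T → ℤ)
    (hD : ∀ b b' t, D (b * b') t = D b t + D b' (b⁻¹ • t)) :
    ∃ D' : T → ℤ, (∀ b t, D' t - D' (b⁻¹ • t) = D b t) ∧
      (∀ t, (∀ b, D b t = 0) → D' t = 0) := by
  classical
  refine ⟨fun t => (∑ b, D b t) / (Fintype.card B : ℤ), ?_, ?_⟩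
  · intro b t
    have h1 : ∑ b', D b' t = (Fintype.card B : ℤ) * D b t + ∑ b', D b' (b⁻¹ • t) := by
      have h2 : ∑ b', D b' t = ∑ b', D (b * b') t :=
        (Fintype.sum_equiv (Equiv.mulLeft b) _ _ fun x => rfl).symm
      rw [h2]
      simp only [hD b]
      rw [Finset.sum_add_distrib, Finset.sum_const, Finset.card_univ]
      simp
    have hc : (Fintype.card B : ℤ) ≠ 0 := by
      have := Fintype.card_pos (α := B)
      positivity
    simp only
    rw [h1, Int.add_comm, Int.add_mul_ediv_left _ _ hc]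
    ring
  · intro t ht
    simp only
    rw [Finset.sum_eq_zero fun b _ => ht b]
    simp

/-- (4.2) the sum of an invariant function is, mod `p`, its sum over the fixed points. -/
theorem sum_fixed {H T : Type*} [Group H] [Fintype T] [MulAction H T] {p : ℕ} [Fact p.Prime]
    (hH : IsPGroup p H) (f : T → ℤ) (hf : ∀ (h : H) (t : T), f (h • t) = f t)
    (F : Finset T) (hF : ∀ t, t ∈ F ↔ ∀ h : H, h • t = t) :
    ((∑ t, f t : ℤ) : ZMod p) = ((∑ t ∈ F, f t : ℤ) : ZMod p) := by
  classical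
  set I : Finset ℤ := Finset.univ.image f with hI
  have h1 : ∑ t, f t = ∑ v ∈ I, ∑ t ∈ Finset.univ.filter (fun t => f t = v), f t :=
    (Finset.sum_fiberwise_of_maps_to (fun t ht => Finset.mem_image_of_mem f ht) _).symm
  have h2 : ∑ t ∈ F, f t = ∑ v ∈ I, ∑ t ∈ F.filter (fun t => f t = v), f t :=
    (Finset.sum_fiberwise_of_maps_to
      (fun t _ => Finset.mem_image_of_mem f (Finset.mem_univ t)) _).symm
  rw [h1, h2]
  push_cast
  refine Finset.sum_congr rfl fun v _ => ?_
  have h3 : ∀ s : Finset T, ∑ t ∈ s.filter (fun t => f t = v), (f t : ZMod p) =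
      ((s.filter (fun t => f t = v)).card : ZMod p) * (v : ZMod p) := by
    intro s
    rw [Finset.sum_congr rfl (g := fun _ => (v : ZMod p))
      (fun t ht => by rw [(Finset.mem_filter.1 ht).2])]
    rw [Finset.sum_const, nsmul_eq_mul]
  rw [h3, h3]
  congr 1
  let act : MulAction H {t : T // f t = v} :=
    { smul := fun h t => ⟨h • t.1, by rw [hf]; exact t.2⟩
      one_smul := fun t => Subtype.ext (one_smul H t.1)
      mul_smul := fun h h' t => Subtype.ext (mul_smul h h' t.1) }
  have h4 := hH.card_modEq_card_fixedPoints {t : T // f t = v}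
  have h5 : Nat.card {t : T // f t = v} = (Finset.univ.filter (fun t => f t = v)).card := by
    rw [Nat.card_eq_fintype_card, Fintype.card_subtype]
  have h6 : Nat.card (MulAction.fixedPoints H {t : T // f t = v}) =
      (F.filter (fun t => f t = v)).card := by
    rw [Nat.card_eq_fintype_card, ← Fintype.card_coe]
    refine Fintype.card_congr ?_
    refine
      { toFun := fun t => ⟨t.1.1, ?_⟩
        invFun := fun t => ⟨⟨t.1, (Finset.mem_filter.1 t.2).2⟩, ?_⟩
        left_inv := fun t => rfl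
        right_inv := fun t => rfl }
    · rw [Finset.mem_filter, hF]
      exact ⟨fun h => congrArg Subtype.val (t.2 h), t.1.2⟩
    · intro h
      exact Subtype.ext (((hF _).1 (Finset.mem_filter.1 t.2).1) h)
  rw [h5, h6] at h4
  exact (ZMod.natCast_eq_natCast_iff _ _ _).2 h4

/-- (4.3) connectivity through fixed vertices. -/
theorem connectivity {B Y : Type*} [Group B] [Fintype Y] [DecidableEq Y] [MulAction B Y]
    {p : ℕ} [Fact p.Prime] (hB : IsPGroup p B) (ν : Y → Y → ℤ)
    (hν : ∀ (b : B) A A', ν (b • A) (b • A') = ν A A') (y y' : Y)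
    (hy : ∀ b : B, b • y = y)
    (hd : ∀ A, bd1 ν A = (if A = y' then 1 else 0) - (if A = y then 1 else 0)) :
    Relation.ReflTransGen (fun A A' => (∀ b : B, b • A = A) ∧ (∀ b : B, b • A' = A') ∧
      ((ν A A' : ZMod p) ≠ 0 ∨ (ν A' A : ZMod p) ≠ 0)) y y' := by
  classical
  set r : Y → Y → Prop := fun A A' => (∀ b : B, b • A = A) ∧ (∀ b : B, b • A' = A') ∧
      ((ν A A' : ZMod p) ≠ 0 ∨ (ν A' A : ZMod p) ≠ 0) with hr
  by_contra hcon
  set F : Finset Y := Finset.univ.filter (fun A => ∀ b : B, b • A = A) with hF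
  set C : Finset Y := F.filter (fun A => Relation.ReflTransGen r y A) with hC
  have hyC : y ∈ C := by
    rw [hC, Finset.mem_filter, hF, Finset.mem_filter]
    exact ⟨⟨Finset.mem_univ _, hy⟩, Relation.ReflTransGen.refl⟩
  have hy'C : y' ∉ C := fun h => hcon (Finset.mem_filter.1 h).2
  have h1 : ∀ A ∈ C, ((bd1 ν A : ℤ) : ZMod p) =
      ∑ X ∈ C, ((ν X A : ZMod p) - (ν A X : ZMod p)) := by
    intro A hA
    have hAF : ∀ b : B, b • A = A := (Finset.mem_filter.1 (Finset.mem_filter.1 hA).1).2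
    have h2 := sum_fixed hB (fun X => ν X A - ν A X) (fun b X => by
      have e1 := hν b X A
      have e2 := hν b A X
      rw [hAF b] at e1 e2
      rw [e1, e2]) F (fun t => by rw [hF, Finset.mem_filter]; simp)
    unfold bd1
    rw [h2]
    push_cast
    symm
    refine Finset.sum_subset (Finset.filter_subset _ _) fun X hXF hXC => ?_
    have hXfix : ∀ b : B, b • X = X := (Finset.mem_filter.1 hXF).2
    have hnr : ¬ r A X := by
      intro hAX
      exact hXC (Finset.mem_filter.2 ⟨hXF, (Finset.mem_filter.1 hA).2.tail hAX⟩)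
    have h3 : (ν A X : ZMod p) = 0 := by
      by_contra h
      exact hnr ⟨hAF, hXfix, Or.inl h⟩
    have h4 : (ν X A : ZMod p) = 0 := by
      by_contra h
      exact hnr ⟨hAF, hXfix, Or.inr h⟩
    rw [h3, h4, sub_zero]
  have h5 : ∑ A ∈ C, ((bd1 ν A : ℤ) : ZMod p) = 0 := by
    rw [Finset.sum_congr rfl h1]
    simp only [Finset.sum_sub_distrib]
    rw [Finset.sum_comm, sub_self]
  have h6 : ∑ A ∈ C, ((bd1 ν A : ℤ) : ZMod p) = -1 := by
    simp only [hd]
    push_cast
    rw [Finset.sum_sub_distrib]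
    rw [Finset.sum_ite_eq' C y' (fun _ => (1 : ZMod p)), if_neg hy'C,
      Finset.sum_ite_eq' C y (fun _ => (1 : ZMod p)), if_pos hyC]
    ring
  rw [h5] at h6
  have h7 : (1 : ZMod p) = 0 := by linear_combination h6
  exact one_ne_zero h7

/-- A subset of a finite group which is the zero set of a cocycle has at most half of the elements
or is everything. -/
theorem half {B : Type*} [Group B] [Fintype B] (T : Set B) [DecidablePred (· ∈ T)] (h1 : 1 ∈ T)
    (hm : ∀ a ∈ T, ∀ b ∈ T, a * b ∈ T) (hi : ∀ a ∈ T, a⁻¹ ∈ T) :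
    (∀ b, b ∈ T) ∨
      Fintype.card B ≤ 2 * (Finset.univ.filter (fun b => b ∉ T)).card := by
  classical
  let K : Subgroup B :=
    { carrier := T
      mul_mem' := fun {a b} ha hb => hm a ha b hb
      one_mem' := h1
      inv_mem' := fun {a} ha => hi a ha }
  by_cases hK : K = ⊤
  · left
    intro b
    have : b ∈ K := by rw [hK]; exact Subgroup.mem_top b
    exact this
  · right
    have h2 : Nat.card K * K.index = Nat.card B := Subgroup.card_mul_index K
    have h3 : K.index ≠ 1 := fun h => hK (Subgroup.index_eq_one.1 h)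
    have h4 : K.index ≠ 0 := Subgroup.index_ne_zero_of_finite
    have h5 : 2 ≤ K.index := by omega
    have h6 : Nat.card K = (Finset.univ.filter (fun b => b ∈ T)).card := by
      rw [Nat.card_eq_fintype_card]
      exact Fintype.card_subtype (fun b => b ∈ T)
    have h7 : (Finset.univ.filter (fun b => b ∈ T)).card +
        (Finset.univ.filter (fun b => b ∉ T)).card = Fintype.card B := by
      rw [Finset.card_filter_add_card_filter_not]
      exact Finset.card_univ
    rw [h6, Nat.card_eq_fintype_card] at h2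
    nlinarith [Nat.mul_le_mul_left (Finset.univ.filter (fun b => b ∈ T)).card h5]

/-- The algebra of section 6 (4.1, 4.3, 4.5 together). -/
theorem connect {B Y : Type*} [Group B] [Fintype B] [Fintype Y] [DecidableEq Y] [MulAction B Y]
    {p : ℕ} [Fact p.Prime] (hB : IsPGroup p B) (D : B → Y → Y → Y → ℤ)
    (hD : ∀ b b' A A' A'', D (b * b') A A' A'' =
      D b A A' A'' + D b' (b⁻¹ • A) (b⁻¹ • A') (b⁻¹ • A''))
    (γ : Y → Y → ℤ)
    (hγ : ∀ b A A', bd2 (D b) A A' = γ A A' - γ (b⁻¹ • A) (b⁻¹ • A'))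
    (y y' : Y) (hy : ∀ b : B, b • y = y)
    (hd : ∀ A, bd1 γ A = (if A = y' then 1 else 0) - (if A = y then 1 else 0))
    (E : Y → Y → Prop)
    (hE : ∀ A A', γ A A' ≠ 0 → E A A')
    (hE' : ∀ A A', (∃ S : Finset B, Fintype.card B ≤ 2 * S.card ∧ ∀ b ∈ S, ∃ X,
      D b X A A' ≠ 0 ∨ D b A X A' ≠ 0 ∨ D b A A' X ≠ 0) → E A A') :
    Relation.ReflTransGen (fun A A' => (∀ b : B, b • A = A) ∧ (∀ b : B, b • A' = A') ∧
      (E A A' ∨ E A' A)) y y' := by
  classical
  obtain ⟨D', hD'1, hD'2⟩ := averaging (B := B) (T := Y × Y × Y) (fun b t => D b t.1 t.2.1 t.2.2)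
    (fun b b' t => hD b b' t.1 t.2.1 t.2.2)
  set M : Y → Y → Y → ℤ := fun A A' A'' => D' (A, A', A'') with hM
  have hM1 : ∀ (b : B) A A' A'', M (b⁻¹ • A) (b⁻¹ • A') (b⁻¹ • A'') =
      M A A' A'' - D b A A' A'' := by
    intro b A A' A''
    have := hD'1 b (A, A', A'')
    simp only [Prod.smul_mk] at this
    simp only [hM]
    linarith
  have hM2 : ∀ A A' A'', (∀ b, D b A A' A'' = 0) → M A A' A'' = 0 :=
    fun A A' A'' h => hD'2 (A, A', A'') h
  set ν : Y → Y → ℤ := fun A A' => γ A A' - bd2 M A A' with hν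
  have hνinv : ∀ (b : B) A A', ν (b⁻¹ • A) (b⁻¹ • A') = ν A A' := by
    intro b A A'
    simp only [hν]
    rw [← bd2_act b M A A']
    have : (fun X X' X'' => M (b⁻¹ • X) (b⁻¹ • X') (b⁻¹ • X'')) =
        fun X X' X'' => M X X' X'' - D b X X' X'' := by
      funext X X' X''
      exact hM1 b X X' X''
    rw [this, bd2_sub, hγ b A A']
    ring
  have hνd : ∀ A, bd1 ν A = (if A = y' then 1 else 0) - (if A = y then 1 else 0) := by
    intro A
    rw [← hd A, hν, bd1_sub, bd1_bd2, sub_zero]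
  have hpath := connectivity (p := p) hB ν (fun b A A' => by
    have := hνinv b⁻¹ A A'
    simpa using this) y y' hy hνd
  refine Relation.ReflTransGen.mono ?_ _ _ hpath
  rintro A A' ⟨hA, hA', hor⟩
  refine ⟨hA, hA', ?_⟩
  have key : ∀ A A' : Y, (∀ b : B, b • A = A) → (∀ b : B, b • A' = A') →
      (ν A A' : ZMod p) ≠ 0 → E A A' := by
    intro A A' hA hA' hne
    by_contra hnE
    have hg0 : γ A A' = 0 := by
      by_contra h
      exact hnE (hE A A' h)
    have hinvA : ∀ b : B, b⁻¹ • A = A := fun b => hA b⁻¹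
    have hinvA' : ∀ b : B, b⁻¹ • A' = A' := fun b => hA' b⁻¹
    set T : Set B := {b | ∀ X, D b X A A' = 0 ∧ D b A X A' = 0 ∧ D b A A' X = 0} with hT
    have hD1 : ∀ X X' X'', D 1 X X' X'' = 0 := by
      intro X X' X''
      have := hD 1 1 X X' X''
      simp only [mul_one, inv_one, one_smul] at this
      linarith
    have hT1 : (1 : B) ∈ T := fun X => ⟨hD1 _ _ _, hD1 _ _ _, hD1 _ _ _⟩
    have hTm : ∀ a ∈ T, ∀ b ∈ T, a * b ∈ T := by
      intro a ha b hb X
      refine ⟨?_, ?_, ?_⟩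
      · rw [hD, (ha X).1, hinvA, hinvA', (hb _).1, add_zero]
      · rw [hD, (ha X).2.1, hinvA, hinvA', (hb _).2.1, add_zero]
      · rw [hD, (ha X).2.2, hinvA, hinvA', (hb _).2.2, add_zero]
    have hTi : ∀ a ∈ T, a⁻¹ ∈ T := by
      intro a ha X
      have e : ∀ X X' X'', D a⁻¹ X X' X'' = - D a (a • X) (a • X') (a • X'') := by
        intro X X' X''
        have := hD a⁻¹ a X X' X''
        rw [inv_mul_cancel, hD1, inv_inv] at this
        linarith
      refine ⟨?_, ?_, ?_⟩
      · rw [e, hA, hA', (ha _).1, neg_zero]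
      · rw [e, hA, hA', (ha _).2.1, neg_zero]
      · rw [e, hA, hA', (ha _).2.2, neg_zero]
    rcases half T hT1 hTm hTi with hall | hcard
    · apply hne
      have hM0 : bd2 M A A' = 0 := by
        unfold bd2
        refine Finset.sum_eq_zero fun X _ => ?_
        rw [hM2 X A A' fun b => (hall b X).1, hM2 A X A' fun b => (hall b X).2.1,
          hM2 A A' X fun b => (hall b X).2.2]
        ring
      simp only [hν]
      rw [hg0, hM0]
      simp
    · apply hnE
      apply hE'
      refine ⟨_, hcard, ?_⟩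
      intro b hb
      have hb' := (Finset.mem_filter.1 hb).2
      by_contra hno
      apply hb'
      intro X
      have hX : ¬ (D b X A A' ≠ 0 ∨ D b A X A' ≠ 0 ∨ D b A A' X ≠ 0) := fun h => hno ⟨X, h⟩
      push Not at hX
      exact hX
  rcases hor with h | h
  · exact Or.inl (key A A' hA hA' h)
  · exact Or.inr (key A' A hA' hA h)

end Pool.Agent.MSF.H63
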