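import Pool.Agent.Lib.MP_acafa7_al.F.IfaceC
import Pool.Agent.Lib.MP_acafa7_al.F.H63.Alg

/-! ENGC: the connectivity engine (PaperF 4.1 + 4.3 + 4.5). -/

namespace MSG.F63

open Classical

theorem seq_of_rtg {Y : Type} {r : Y → Y → Prop} {a b : Y} (h : Relation.ReflTransGen r a b) :
    ∃ (l : ℕ) (v : ℕ → Y), v 0 = a ∧ v l = b ∧ ∀ i, i < l → r (v i) (v (i + 1)) := by
  induction h with
  | refl => exact ⟨0, fun _ => a, rfl, rfl, fun i hi => absurd hi (Nat.not_lt_zero i)⟩
  | @tail b c _ hbc ih =>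
    obtain ⟨l, v, h0, hl, hr⟩ := ih
    refine ⟨l + 1, fun i => if i ≤ l then v i else c, ?_, ?_, ?_⟩
    · simp [h0]
    · simp
    · intro i hi
      rcases Nat.lt_or_ge i l with h | h
      · have h1 : i ≤ l := h.le
        have h2 : i + 1 ≤ l := h
        simp only [h1, h2, if_true]
        exact hr i h
      · have h1 : i = l := by omega
        subst h1
        have h2 : ¬ i + 1 ≤ i := by omega
        simp only [le_refl, if_true, h2, if_false]
        rw [hl]
        exact hbc

theorem bd2_eq {Y : Type} [Fintype Y] {c : Y → ℕ} {N : Ch2 Y} (hN : Inc2 c N) (P Q : Y) :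
    Pool.Agent.MSF.H63.bd2 N P Q = MSG.bd2 c N P Q := by
  unfold MSG.bd2 Pool.Agent.MSF.H63.bd2
  by_cases h : c P < c Q
  · rw [if_pos h]
    exact Finset.sum_congr rfl fun X _ => by ring
  · rw [if_neg h]
    refine Finset.sum_eq_zero fun X _ => ?_
    rw [hN X P Q (fun h' => h h'.2), hN P X Q (fun h' => h (h'.1.trans h'.2)),
      hN P Q X (fun h' => h h'.1)]
    ring

theorem engc_st : EngCStatement := by
  intro p _ B Y _ _ _ _ c hB hc γ D y₀ y₁ hγ1 hD2 hcoc hbd hγbd hy₀ hy₁
  set E : Y → Y → Prop := fun P Q => (γ P Q ≠ 0 ∨ γ Q P ≠ 0) ∨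
    Fintype.card B ≤ 2 * (Finset.univ.filter (fun b => InSupp (D b) P Q)).card with hE
  have h := Pool.Agent.MSF.H63.connect (p := p) hB D
    (fun b b' A A' A'' => by
      have := congrFun (congrFun (congrFun (hcoc b b') A) A') A''
      simpa [ac2] using this) γ
    (fun b A A' => by
      rw [bd2_eq (hD2 b)]
      have := congrFun (congrFun (hbd b) A) A'
      simpa [ac1] using this) y₀ y₁ hy₀
    (fun A => by
      have h1 : Pool.Agent.MSF.H63.bd1 γ A = MSG.bd1 γ A := rfl
      rw [h1, hγbd]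
      simp only [kr, eq_comm]) E
    (fun A A' h => Or.inl (Or.inl h))
    (fun A A' h => by
      obtain ⟨S, hS, hS'⟩ := h
      refine Or.inr (hS.trans ?_)
      refine Nat.mul_le_mul_left 2 (Finset.card_le_card ?_)
      intro b hb
      rw [Finset.mem_filter]
      refine ⟨Finset.mem_univ _, ?_⟩
      obtain ⟨X, hX⟩ := hS' b hb
      refine ⟨X, ?_⟩
      rcases hX with hX | hX | hX
      · exact Or.inr (Or.inr (Or.inl hX))
      · exact Or.inr (Or.inl hX)
      · exact Or.inl hX)
  obtain ⟨l, v, h0, hl, hr⟩ := seq_of_rtg h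
  have hsymm : ∀ P Q, E Q P → E P Q := by
    intro P Q h
    rcases h with h | h
    · exact Or.inl h.symm
    · refine Or.inr (h.trans (Nat.mul_le_mul_left 2 (Finset.card_le_card ?_)))
      intro b hb
      rw [Finset.mem_filter] at hb ⊢
      refine ⟨Finset.mem_univ _, ?_⟩
      obtain ⟨X, hX⟩ := hb.2
      refine ⟨X, ?_⟩
      tauto
  refine ⟨l, v, h0, hl, ?_, ?_⟩
  · intro i hi b
    rcases Nat.eq_or_lt_of_le hi with h1 | h1
    · rw [h1, hl]
      exact hy₁ b
    · exact (hr i h1).1 b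
  · intro i hi
    rcases (hr i hi).2.2 with h | h
    · exact h
    · exact hsymm _ _ h

end MSG.F63
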